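import Mathlib

set_option autoImplicit false

namespace Pool.Agent.Results.MP_106823_nt.SquaresOmegaDivergent

/-- `a 1, a 2, …` is the E-sequence of the odd integer `x` (the value `a 0` plays no role): the
integers `X 0 = x`, `X n = (3 X (n-1) + 1) / 2 ^ (a n)` are all odd. -/
def IsESequenceOf (a : ℕ → ℕ) (x : ℤ) : Prop :=
  Odd x ∧ ∃ X : ℕ → ℤ, X 0 = x ∧
    ∀ n, 1 ≤ n → Odd (X n) ∧ 2 ^ a n * X n = 3 * X (n - 1) + 1

/-- `a 1, a 2, …` is `Ω`-divergent: it is the E-sequence of no odd positive integer. -/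
def OmegaDivergent (a : ℕ → ℕ) : Prop := ∀ x : ℤ, 0 < x → ¬ IsESequenceOf a x

open Classical in
/-- The sequence of the problem: `q n = 2` if `n` is one of `2^2, 3^2, 4^2, …`, and `q n = 1`
otherwise. -/
noncomputable def q (n : ℕ) : ℕ := if ∃ j : ℕ, 2 ≤ j ∧ n = j ^ 2 then 2 else 1

/-! ### The two families of linear forms -/

/-- the forms -/
def Dl (r : ℕ → ℤ) : ℕ → ℕ → ℤ
  | 0, i => r i
  | (n + 1), i => 9 ^ n * Dl r n (i + 1) - 4 ^ n * Dl r n i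

/-- the odd parts -/
def Gm (r : ℕ → ℤ) : ℕ → ℕ → ℤ
  | 0, i => r i
  | (n + 1), i => 4 ^ (n + 1) * Gm r n (i + 2) - 9 ^ (n + 1) * Gm r n (i + 1)

section forms
variable {r : ℕ → ℤ} (hodd : ∀ i, 1 ≤ i → Odd (r i))
  (hrec : ∀ i, 1 ≤ i → 2 ^ (2 * i + 2) * r (i + 1) = 3 ^ (2 * i + 1) * (r i - 1))

include hodd in
theorem Gm_odd (n : ℕ) : ∀ i, 1 ≤ i → Odd (Gm r n i) := by
  induction n with
  | zero => exact hodd
  | succ n ih =>
    intro i hi
    have h1 := ih (i + 1) (by omega)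
    have h2 : Odd ((9 : ℤ) ^ (n + 1)) := Odd.pow (by decide)
    have h3 : Even ((4 : ℤ) ^ (n + 1)) := by
      rw [Int.even_pow]
      exact ⟨by decide, by omega⟩
    show Odd (4 ^ (n + 1) * Gm r n (i + 2) - 9 ^ (n + 1) * Gm r n (i + 1))
    exact (h3.mul_right _).sub_odd (h2.mul h1)

include hrec in
theorem star2 (n : ℕ) : ∀ i, 1 ≤ i →
    3 ^ (4 * n + 2 * i + 3) * (Gm r n (i + 1) - Gm r n i) =
      2 ^ (2 * n + 2 * i + 2) * Gm r (n + 1) i := by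
  induction n with
  | zero =>
    intro i hi
    have h1 := hrec i hi
    have h2 := hrec (i + 1) (by omega)
    simp only [Gm]
    have e1 : (2 : ℤ) ^ (2 * (i + 1) + 2) = 4 * 2 ^ (2 * i + 2) := by ring
    have e2 : (3 : ℤ) ^ (2 * (i + 1) + 1) = 9 * 3 ^ (2 * i + 1) := by ring
    rw [e1, e2] at h2
    have e3 : (3 : ℤ) ^ (4 * 0 + 2 * i + 3) = 9 * 3 ^ (2 * i + 1) := by ring
    have e4 : (2 : ℤ) ^ (2 * 0 + 2 * i + 2) = 2 ^ (2 * i + 2) := by ring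
    rw [e3, e4]
    have e5 : i + 1 + 1 = i + 2 := rfl
    rw [e5] at h2
    linear_combination (-1 : ℤ) * h2 + 9 * h1
  | succ n ih =>
    intro i hi
    have h1 := ih (i + 1) (by omega)
    have h2 := ih (i + 2) (by omega)
    have e1 : Gm r (n + 1) (i + 1) =
        4 ^ (n + 1) * Gm r n (i + 3) - 9 ^ (n + 1) * Gm r n (i + 2) := rfl
    have e2 : Gm r (n + 1) i =
        4 ^ (n + 1) * Gm r n (i + 2) - 9 ^ (n + 1) * Gm r n (i + 1) := rfl
    have e3 : Gm r (n + 1 + 1) i =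
        4 ^ (n + 1 + 1) * Gm r (n + 1) (i + 2) - 9 ^ (n + 1 + 1) * Gm r (n + 1) (i + 1) := rfl
    have h1' : 3 ^ (4 * n + 2 * (i + 1) + 3) * (Gm r n (i + 2) - Gm r n (i + 1)) =
      2 ^ (2 * n + 2 * (i + 1) + 2) * Gm r (n + 1) (i + 1) := h1
    have h2' : 3 ^ (4 * n + 2 * (i + 2) + 3) * (Gm r n (i + 3) - Gm r n (i + 2)) =
      2 ^ (2 * n + 2 * (i + 2) + 2) * Gm r (n + 1) (i + 2) := h2
    rw [e3]
    have key : 3 ^ (4 * (n + 1) + 2 * i + 3) * (Gm r (n + 1) (i + 1) - Gm r (n + 1) i) =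
        4 ^ (n + 1) * (3 ^ (4 * n + 2 * (i + 2) + 3) * (Gm r n (i + 3) - Gm r n (i + 2))) -
        9 ^ (n + 1) * 9 * (3 ^ (4 * n + 2 * (i + 1) + 3) * (Gm r n (i + 2) - Gm r n (i + 1))) := by
      rw [e1, e2]
      have f1 : (3 : ℤ) ^ (4 * (n + 1) + 2 * i + 3) = 81 * (3 ^ (4 * n + 2 * i) * 27) := by ring
      have f2 : (3 : ℤ) ^ (4 * n + 2 * (i + 2) + 3) = 81 * (3 ^ (4 * n + 2 * i) * 27) := by ring
      have f3 : (3 : ℤ) ^ (4 * n + 2 * (i + 1) + 3) = 9 * (3 ^ (4 * n + 2 * i) * 27) := by ring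
      rw [f1, f2, f3]
      ring
    rw [key, h1', h2']
    have g1 : (2 : ℤ) ^ (2 * n + 2 * (i + 2) + 2) = 64 * 2 ^ (2 * n + 2 * i) := by ring
    have g2 : (2 : ℤ) ^ (2 * n + 2 * (i + 1) + 2) = 16 * 2 ^ (2 * n + 2 * i) := by ring
    have g3 : (2 : ℤ) ^ (2 * (n + 1) + 2 * i + 2) = 16 * 2 ^ (2 * n + 2 * i) := by ring
    rw [g1, g2, g3]
    ring

include hrec in
theorem star (n : ℕ) : ∀ i, 1 ≤ i →
    3 ^ (2 * n ^ 2 + n + 2 * i * n) * Dl r n i = 2 ^ (2 * n ^ 2 + 2 * i * n) * Gm r n i := by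
  induction n with
  | zero => intro i _; simp [Dl, Gm]
  | succ n ih =>
    intro i hi
    have h1 := ih i hi
    have h2 := ih (i + 1) (by omega)
    have h3 := star2 hrec n i hi
    have e0 : Dl r (n + 1) i = 9 ^ n * Dl r n (i + 1) - 4 ^ n * Dl r n i := rfl
    -- abbreviations
    have p1 : (3 : ℤ) ^ (2 * n ^ 2 + n + 2 * (i + 1) * n) =
        3 ^ (2 * n ^ 2 + n + 2 * i * n) * 9 ^ n := by
      rw [show (9 : ℤ) = 3 ^ 2 by norm_num, ← pow_mul, ← pow_add]; congr 1; ring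
    have p2 : (2 : ℤ) ^ (2 * n ^ 2 + 2 * (i + 1) * n) =
        2 ^ (2 * n ^ 2 + 2 * i * n) * 4 ^ n := by
      rw [show (4 : ℤ) = 2 ^ 2 by norm_num, ← pow_mul, ← pow_add]; congr 1; ring
    have p3 : (3 : ℤ) ^ (2 * (n + 1) ^ 2 + (n + 1) + 2 * i * (n + 1)) =
        3 ^ (2 * n ^ 2 + n + 2 * i * n) * 3 ^ (4 * n + 2 * i + 3) := by
      rw [← pow_add]; congr 1; ring
    have p4 : (2 : ℤ) ^ (2 * (n + 1) ^ 2 + 2 * i * (n + 1)) =
        2 ^ (2 * n ^ 2 + 2 * i * n) * 4 ^ n * 2 ^ (2 * n + 2 * i + 2) := by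
      rw [show (4 : ℤ) = 2 ^ 2 by norm_num, ← pow_mul, ← pow_add, ← pow_add]; congr 1; ring
    rw [p1, p2] at h2
    rw [p3, p4]
    -- 3^a Dl_{n+1}(i) = 2^b 4^n (Γ_n(i+1) - Γ_n(i))
    have h4 : 3 ^ (2 * n ^ 2 + n + 2 * i * n) * Dl r (n + 1) i =
        2 ^ (2 * n ^ 2 + 2 * i * n) * 4 ^ n * (Gm r n (i + 1) - Gm r n i) := by
      rw [e0]
      linear_combination h2 - 4 ^ n * h1
    calc 3 ^ (2 * n ^ 2 + n + 2 * i * n) * 3 ^ (4 * n + 2 * i + 3) * Dl r (n + 1) i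
        = 3 ^ (4 * n + 2 * i + 3) * (3 ^ (2 * n ^ 2 + n + 2 * i * n) * Dl r (n + 1) i) := by ring
      _ = 2 ^ (2 * n ^ 2 + 2 * i * n) * 4 ^ n *
          (3 ^ (4 * n + 2 * i + 3) * (Gm r n (i + 1) - Gm r n i)) := by rw [h4]; ring
      _ = _ := by rw [h3]; ring

include hodd hrec in
theorem Dl_lower (n i : ℕ) (hi : 1 ≤ i) : 2 ^ (2 * n ^ 2 + 2 * i * n) ≤ |Dl r n i| := by
  have h1 := star hrec n i hi
  have h2 := Gm_odd hodd n i hi
  have h3 : Gm r n i ≠ 0 := by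
    intro h; rw [h] at h2; exact absurd h2 (by decide)
  have hne : Dl r n i ≠ 0 := by
    intro h
    rw [h, mul_zero] at h1
    have : (2 : ℤ) ^ (2 * n ^ 2 + 2 * i * n) ≠ 0 := by positivity
    exact (mul_ne_zero this h3) h1.symm
  have hdvd : (2 : ℤ) ^ (2 * n ^ 2 + 2 * i * n) ∣ Dl r n i := by
    have hc : IsCoprime ((2 : ℤ) ^ (2 * n ^ 2 + 2 * i * n)) (3 ^ (2 * n ^ 2 + n + 2 * i * n)) := by
      apply IsCoprime.pow
      exact ⟨-1, 1, by norm_num⟩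
    apply hc.dvd_of_dvd_mul_left
    rw [h1]
    exact dvd_mul_right _ _
  have h5 := Int.le_of_dvd (abs_pos.2 hne) ((dvd_abs _ _).2 hdvd)
  exact h5

include hodd hrec in
theorem r_upper : ∀ i, 1 ≤ i → 2 ^ (i ^ 2) * |r i| ≤ |r 1| * 3 ^ (i ^ 2) := by
  intro i hi
  induction i, hi using Nat.le_induction with
  | base => 
    have := abs_nonneg (r 1)
    simp only [one_pow, pow_one]
    linarith
  | succ i hi ih =>
    have h1 := hrec i hi
    have h2 : 1 ≤ |r i| := by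
      have h3 := hodd i hi
      have h4 : r i ≠ 0 := by
        intro h; rw [h] at h3; exact absurd h3 (by decide)
      exact Int.one_le_abs h4
    have h3 : 2 ^ (2 * i + 2) * |r (i + 1)| = 3 ^ (2 * i + 1) * |r i - 1| := by
      have := congrArg abs h1
      rw [abs_mul, abs_mul, abs_of_pos (by positivity : (0 : ℤ) < 2 ^ (2 * i + 2)),
        abs_of_pos (by positivity : (0 : ℤ) < 3 ^ (2 * i + 1))] at this
      exact this
    have h4 : |r i - 1| ≤ 2 * |r i| := by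
      have := abs_sub (r i) 1
      rw [abs_one] at this
      linarith
    have h5 : 2 ^ (2 * i + 1) * |r (i + 1)| ≤ 3 ^ (2 * i + 1) * |r i| := by
      have e : (2 : ℤ) ^ (2 * i + 2) = 2 * 2 ^ (2 * i + 1) := by ring
      rw [e] at h3
      have h6 : (3 : ℤ) ^ (2 * i + 1) * |r i - 1| ≤ 3 ^ (2 * i + 1) * (2 * |r i|) :=
        mul_le_mul_of_nonneg_left h4 (by positivity)
      nlinarith
    have e1 : (2 : ℤ) ^ ((i + 1) ^ 2) = 2 ^ (i ^ 2) * 2 ^ (2 * i + 1) := by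
      rw [← pow_add]; congr 1; ring
    have e2 : (3 : ℤ) ^ ((i + 1) ^ 2) = 3 ^ (i ^ 2) * 3 ^ (2 * i + 1) := by
      rw [← pow_add]; congr 1; ring
    calc 2 ^ ((i + 1) ^ 2) * |r (i + 1)| = 2 ^ (i ^ 2) * (2 ^ (2 * i + 1) * |r (i + 1)|) := by
          rw [e1]; ring
      _ ≤ 2 ^ (i ^ 2) * (3 ^ (2 * i + 1) * |r i|) := mul_le_mul_of_nonneg_left h5 (by positivity)
      _ = 3 ^ (2 * i + 1) * (2 ^ (i ^ 2) * |r i|) := by ring
      _ ≤ 3 ^ (2 * i + 1) * (|r 1| * 3 ^ (i ^ 2)) := mul_le_mul_of_nonneg_left ih (by positivity)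
      _ = |r 1| * 3 ^ ((i + 1) ^ 2) := by rw [e2]; ring

include hodd hrec in
theorem Dl_upper (n : ℕ) : ∀ i, 1 ≤ i →
    2 ^ ((i + n) ^ 2) * |Dl r n i| ≤ |r 1| * 3 ^ (n ^ 2 + (i + n) ^ 2) := by
  induction n with
  | zero =>
    intro i hi
    have := r_upper hodd hrec i hi
    simpa [Dl] using this
  | succ n ih =>
    intro i hi
    have h1 := ih i hi
    have h2 := ih (i + 1) (by omega)
    have e0 : Dl r (n + 1) i = 9 ^ n * Dl r n (i + 1) - 4 ^ n * Dl r n i := rfl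
    have h3 : |Dl r (n + 1) i| ≤ 9 ^ n * |Dl r n (i + 1)| + 4 ^ n * |Dl r n i| := by
      rw [e0]
      refine (abs_sub _ _).trans ?_
      rw [abs_mul, abs_mul, abs_of_pos (by positivity : (0 : ℤ) < 9 ^ n),
        abs_of_pos (by positivity : (0 : ℤ) < 4 ^ n)]
    have e1 : i + 1 + n = i + (n + 1) := by ring
    rw [e1] at h2
    set s := i + n with hs
    have e2 : i + (n + 1) = s + 1 := by omega
    rw [e2] at h2 ⊢
    have p1 : (2 : ℤ) ^ ((s + 1) ^ 2) = 2 ^ (s ^ 2) * 2 ^ (2 * s + 1) := by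
      rw [← pow_add]; congr 1; ring
    have p2 : (3 : ℤ) ^ (n ^ 2 + (s + 1) ^ 2) = 3 ^ (n ^ 2 + s ^ 2) * 3 ^ (2 * s + 1) := by
      rw [← pow_add]; congr 1; ring
    have p3 : (3 : ℤ) ^ ((n + 1) ^ 2 + (s + 1) ^ 2) =
        3 ^ (n ^ 2 + (s + 1) ^ 2) * (9 ^ n * 3) := by
      rw [show (9 : ℤ) = 3 ^ 2 by norm_num, ← pow_mul, ← pow_succ, ← pow_add]; congr 1; ring
    have q1 : (2 : ℤ) ^ (2 * s + 1) ≤ 3 ^ (2 * s + 1) :=
      pow_le_pow_left₀ (by norm_num) (by norm_num) _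
    have q2 : (4 : ℤ) ^ n ≤ 9 ^ n := pow_le_pow_left₀ (by norm_num) (by norm_num) _
    have hC : 0 ≤ |r 1| := abs_nonneg _
    -- second term
    have h4 : 2 ^ ((s + 1) ^ 2) * |Dl r n i| ≤ |r 1| * 3 ^ (n ^ 2 + (s + 1) ^ 2) := by
      rw [p1, p2]
      calc 2 ^ (s ^ 2) * 2 ^ (2 * s + 1) * |Dl r n i|
          = 2 ^ (2 * s + 1) * (2 ^ (s ^ 2) * |Dl r n i|) := by ring
        _ ≤ 3 ^ (2 * s + 1) * (|r 1| * 3 ^ (n ^ 2 + s ^ 2)) := by
            apply mul_le_mul q1 h1 (by positivity) (by positivity)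
        _ = _ := by ring
    set B : ℤ := |r 1| * 3 ^ (n ^ 2 + (s + 1) ^ 2) with hB
    have hB0 : 0 ≤ B := by positivity
    calc 2 ^ ((s + 1) ^ 2) * |Dl r (n + 1) i|
        ≤ 2 ^ ((s + 1) ^ 2) * (9 ^ n * |Dl r n (i + 1)| + 4 ^ n * |Dl r n i|) :=
          mul_le_mul_of_nonneg_left h3 (by positivity)
      _ = 9 ^ n * (2 ^ ((s + 1) ^ 2) * |Dl r n (i + 1)|) +
          4 ^ n * (2 ^ ((s + 1) ^ 2) * |Dl r n i|) := by ring
      _ ≤ 9 ^ n * B + 4 ^ n * B := by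
          apply add_le_add
          · exact mul_le_mul_of_nonneg_left h2 (by positivity)
          · exact mul_le_mul_of_nonneg_left h4 (by positivity)
      _ ≤ 9 ^ n * B + 9 ^ n * B := by
          apply add_le_add le_rfl
          exact mul_le_mul_of_nonneg_right q2 hB0
      _ ≤ 3 * 9 ^ n * B := by
          have : 0 ≤ 9 ^ n * B := by positivity
          nlinarith
      _ = |r 1| * 3 ^ ((n + 1) ^ 2 + (s + 1) ^ 2) := by rw [p3, hB]; ring

include hodd hrec in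
theorem no_sequence : False := by
  -- `2 ^ (k^2) ≤ |r 1|` for all `k ≥ 1`
  have key : ∀ k : ℕ, 1 ≤ k → (2 : ℤ) ^ (k ^ 2) ≤ |r 1| := by
    intro k hk
    have h1 := Dl_upper hodd hrec (5 * k) (3 * k) (by omega)
    have h2 := Dl_lower hodd hrec (5 * k) (3 * k) (by omega)
    have e1 : (3 * k + 5 * k) ^ 2 = 64 * k ^ 2 := by ring
    have e2 : (5 * k) ^ 2 + 64 * k ^ 2 = 89 * k ^ 2 := by ring
    have e3 : 2 * (5 * k) ^ 2 + 2 * (3 * k) * (5 * k) = 80 * k ^ 2 := by ring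
    rw [e1, e2] at h1
    rw [e3] at h2
    have h3 : (2 : ℤ) ^ (144 * k ^ 2) ≤ |r 1| * 3 ^ (89 * k ^ 2) := by
      have e : 144 * k ^ 2 = 64 * k ^ 2 + 80 * k ^ 2 := by ring
      calc (2 : ℤ) ^ (144 * k ^ 2) = 2 ^ (64 * k ^ 2) * 2 ^ (80 * k ^ 2) := by rw [e, pow_add]
        _ ≤ 2 ^ (64 * k ^ 2) * |Dl r (5 * k) (3 * k)| :=
            mul_le_mul_of_nonneg_left h2 (by positivity)
        _ ≤ _ := h1
    have h4 : (2 : ℤ) ^ (k ^ 2) * 3 ^ (89 * k ^ 2) ≤ 2 ^ (144 * k ^ 2) := by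
      rw [pow_mul 3 89, pow_mul 2 144, ← mul_pow]
      apply pow_le_pow_left₀ (by positivity)
      norm_num
    have h5 : (2 : ℤ) ^ (k ^ 2) * 3 ^ (89 * k ^ 2) ≤ |r 1| * 3 ^ (89 * k ^ 2) := h4.trans h3
    exact le_of_mul_le_mul_right h5 (by positivity)
  obtain ⟨N, hN⟩ : ∃ N : ℕ, |r 1| = N := ⟨(r 1).natAbs, by rw [Int.abs_eq_natAbs]⟩
  have h1 := key (N + 1) (by omega)
  rw [hN] at h1
  have h2 : 2 ^ ((N + 1) ^ 2) ≤ N := by exact_mod_cast h1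
  have h3 : (N + 1) ^ 2 < 2 ^ ((N + 1) ^ 2) := Nat.lt_two_pow_self
  nlinarith

end forms

/-! ### The trajectory -/

theorem q_sq {j : ℕ} (hj : 2 ≤ j) : q (j ^ 2) = 2 := by
  unfold q; rw [if_pos ⟨j, hj, rfl⟩]

theorem q_between {i t : ℕ} (ht : 1 ≤ t) (ht2 : t ≤ 2 * i) : q (i ^ 2 + t) = 1 := by
  unfold q
  rw [if_neg]
  rintro ⟨j, hj, h⟩
  rcases Nat.lt_or_ge i j with hlt | hge
  · have : (i + 1) ^ 2 ≤ j ^ 2 := Nat.pow_le_pow_left hlt 2
    nlinarith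
  · have : j ^ 2 ≤ i ^ 2 := Nat.pow_le_pow_left hge 2
    omega

/-- No odd integer, positive or negative, has `q` as its E-sequence. -/
theorem main (x : ℤ) : ¬ IsESequenceOf q x := by
  rintro ⟨-, X, -, hX⟩
  have run : ∀ i, 1 ≤ i → ∀ t, t ≤ 2 * i →
      2 ^ t * (X (i ^ 2 + t) + 1) = 3 ^ t * (X (i ^ 2) + 1) := by
    intro i hi t
    induction t with
    | zero => intro _; simp
    | succ t ih =>
      intro ht
      have h1 := ih (by omega)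
      have h2 := (hX (i ^ 2 + (t + 1)) (by omega)).2
      rw [q_between (by omega) ht] at h2
      have e : i ^ 2 + (t + 1) - 1 = i ^ 2 + t := by omega
      rw [e, pow_one] at h2
      generalize X (i ^ 2 + (t + 1)) = A at h2 ⊢
      generalize X (i ^ 2 + t) = B at h1 h2
      generalize X (i ^ 2) = C at h1 ⊢
      rw [pow_succ, pow_succ]
      linear_combination 2 ^ t * h2 + 3 * h1
  apply no_sequence (r := fun i => -(2 * X (i ^ 2) + 1))
  · intro i _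
    exact ⟨-(X (i ^ 2)) - 1, by ring⟩
  · intro i hi
    have h1 := run i hi (2 * i) le_rfl
    have h2 := (hX ((i + 1) ^ 2) (Nat.one_le_pow _ _ (by omega))).2
    rw [q_sq (by omega)] at h2
    have e : (i + 1) ^ 2 - 1 = i ^ 2 + 2 * i := by
      have : (i + 1) ^ 2 = i ^ 2 + 2 * i + 1 := by ring
      omega
    rw [e] at h2
    show 2 ^ (2 * i + 2) * (-(2 * X ((i + 1) ^ 2) + 1)) =
      3 ^ (2 * i + 1) * (-(2 * X (i ^ 2) + 1) - 1)
    generalize X ((i + 1) ^ 2) = A at h2 ⊢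
    generalize X (i ^ 2 + 2 * i) = B at h1 h2
    generalize X (i ^ 2) = C at h1 ⊢
    rw [pow_add, pow_add]
    linear_combination (-2 * 2 ^ (2 * i)) * h2 - 6 * h1

/-- **The E-sequence with 2s at the perfect squares `≥ 4` is `Ω`-divergent**; more precisely it is
not the E-sequence of any odd integer, positive or negative. -/
theorem result : OmegaDivergent q ∧ ∀ x : ℤ, ¬ IsESequenceOf q x :=
  ⟨fun x _ => main x, main⟩

end Pool.Agent.Results.MP_106823_nt.SquaresOmegaDivergent
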